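import Pool.Agent.H23.CMC.Targets

/-!
# The fourth moment of the complete family of CM Hilbert modular forms, part D: the character as a
character of the library
-/

set_option autoImplicit false

open NumberField MeasureTheory Set Filter Complex
open scoped nonZeroDivisors Real

namespace Pool.Agent.H99.CMC

open Pool.Agent.H23.CMC
open Pool.Agent.H65.CM4 (Sq nm dg Pl rv)
open Pool.Agent.H65.CMC (Emb ty PrTo IsHk ms IsLk gg GM cG Km Idx cdc Fmc lc)
open Pool.Agent.H23.CM4 (nJ Jd Nr wB)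
open Pool.Agent.H23.LC (HG ag)

/-- `(z / |z|) ^ (2 m) = (z / conj z) ^ m` -/
theorem hkg_zpow (z : ℂ) (hz : z ≠ 0) (m : ℤ) :
    (z / ((‖z‖ : ℝ) : ℂ)) ^ (2 * m) = (z / (starRingEnd ℂ) z) ^ m := by
  rw [zpow_mul]
  congr 1
  have h1 : ((‖z‖ : ℝ) : ℂ) ≠ 0 := by
    rw [Complex.ofReal_ne_zero]
    exact norm_ne_zero_iff.2 hz
  have h2 : (starRingEnd ℂ) z ≠ 0 := by
    rw [Ne, map_eq_zero]
    exact hz
  have h3 : z * (starRingEnd ℂ) z = ((‖z‖ : ℝ) : ℂ) ^ 2 := Complex.mul_conj' z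
  have h4 : (z / ((‖z‖ : ℝ) : ℂ)) ^ (2 : ℤ) = z ^ 2 / ((‖z‖ : ℝ) : ℂ) ^ 2 := by
    rw [div_zpow]
    norm_cast
  rw [h4, ← h3]
  field_simp

/-- the same for the conjugate -/
theorem hkg_zpow' (z : ℂ) (hz : z ≠ 0) (m : ℤ) :
    ((starRingEnd ℂ) z / ((‖z‖ : ℝ) : ℂ)) ^ (-(2 * m)) = (z / (starRingEnd ℂ) z) ^ m := by
  have h2 : (starRingEnd ℂ) z ≠ 0 := by
    rw [Ne, map_eq_zero]
    exact hz
  have h := hkg_zpow ((starRingEnd ℂ) z) h2 (-m)
  rw [Complex.norm_conj, Complex.conj_conj] at h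
  have e : (2 : ℤ) * -m = -(2 * m) := by ring
  rw [e] at h
  rw [h, zpow_neg, ← inv_zpow, inv_div]

theorem hkg_fac {k : Type} [Field k] [NumberField k] [IsTotallyReal k] {K : Type} [Field K]
    [NumberField K] [Algebra k K] (Φ : Pl k → K →+* ℂ) (w : InfinitePlace K) (v : Pl k) (n : ℤ)
    (c : Prop) [Decidable c] (hc : c ↔ w.embedding = Φ v)
    (h : w.embedding = Φ v ∨ ∀ a : K, w.embedding a = (starRingEnd ℂ) (Φ v a))
    (hn : ∀ a : K, w a = ‖Φ v a‖) (a : K) (ha : a ≠ 0) :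
    (w.embedding a / ((w a : ℝ) : ℂ)) ^ (if c then 2 * n else -(2 * n)) =
      (Φ v a / (starRingEnd ℂ) (Φ v a)) ^ n := by
  have hz : Φ v a ≠ 0 := by
    rw [Ne, map_eq_zero]
    exact ha
  rw [hn a]
  by_cases hw : c
  · rw [if_pos hw, hc.1 hw]
    exact hkg_zpow _ hz n
  · rw [if_neg hw]
    rcases h with h | h
    · exact absurd (hc.2 h) hw
    · rw [h a]
      exact hkg_zpow' _ hz n

theorem pf_HKG (hPLB : T_PLB) (hDCX : T_DCX) : T_HKG := by
  classical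
  intro k _ _ _ K _ _ _ Φ f m ψ hψ
  obtain ⟨hrk, hcx, hemb, hhk⟩ := hψ
  obtain ⟨hbij, hpl⟩ := hPLB k K hrk hcx
  have hpl' := hpl Φ hemb
  set kk : InfinitePlace K → ℤ := fun w =>
    if w.embedding = Φ (w.comap (algebraMap k K)) then 2 * m (w.comap (algebraMap k K))
    else -(2 * m (w.comap (algebraMap k K))) with hkk
  have hag : ∀ a : K, a ≠ 0 → ag kk a = ty Φ m a := by
    intro a ha
    unfold ag ty
    rw [← hbij.prod_comp (fun v : Pl k => (Φ v a / (starRingEnd ℂ) (Φ v a)) ^ (m v))]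
    refine Finset.prod_congr rfl fun w _ => ?_
    exact hkg_fac Φ w _ _ _ Iff.rfl (hpl' w).2.1 (hpl' w).2.2 a ha
  have hf0 : fK K f ≠ ⊥ := ((hDCX k K hrk).2.2.1 f hhk.fne).2.2.2.1
  refine ⟨⟨ψ, kk, fun _ => 0, hhk.one, hhk.mul, ?_, ?_, ?_, ?_, ?_, ?_⟩, rfl, rfl, hag, ?_⟩
  · exact hhk.zer ⊥ fun h => h.1 rfl
  · intro I hI hIf
    exact hhk.nrm I ⟨hI, hIf⟩
  · intro I hI
    exact hhk.zer I fun h => hI h.2
  · intro a ha haf
    have hph : Pool.Agent.H23.LB.ph (fun _ : InfinitePlace K => (0 : ℝ)) (a : K) = 1 := by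
      unfold Pool.Agent.H23.LB.ph
      simp
    have ha' : ((a : 𝓞 K) : K) ≠ 0 := by
      rw [Ne, RingOfIntegers.coe_eq_zero_iff]
      exact ha
    rw [hph, mul_one, hag _ ha']
    refine hhk.pri a 1 ⟨?_, ?_⟩ ?_
    · rw [Ne, Ideal.span_singleton_eq_bot]
      exact ha
    · rw [Ideal.eq_top_iff_one]
      have e : (1 : 𝓞 K) = a + -(a - 1) := by ring
      rw [e]
      refine Submodule.add_mem_sup (Ideal.mem_span_singleton_self a) ?_
      exact neg_mem haf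
    · rw [map_one]
      exact haf
  · intro w hw
    exact absurd (hpl' w).1 (by rw [← InfinitePlace.not_isReal_iff_isComplex]; exact not_not.2 hw)
  · simp
  · intro w
    show |kk w| = _
    rw [hkk]
    dsimp only
    split_ifs with h
    · rw [abs_mul]
      norm_num
    · rw [abs_neg, abs_mul]
      norm_num

end Pool.Agent.H99.CMC
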