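import Pool.Agent.H23.CMC.Targets

/-!
# The fourth moment of the complete family of CM Hilbert modular forms, part D: bounds for the
kernel on the positive real numbers (uniform in the weight)
-/

set_option autoImplicit false

open NumberField MeasureTheory Set Filter Complex
open scoped nonZeroDivisors Real

namespace Pool.Agent.H99.CMC

open Pool.Agent.H23.CMC
open Pool.Agent.H65.CM4 (Sq nm dg Pl rv)
open Pool.Agent.H65.CMC (Emb ty PrTo IsHk ms IsLk gg GM cG Km Idx cdc Fmc lc)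
open Pool.Agent.H23.CM4 (nJ Jd Nr wB)
open Pool.Agent.H23.LC (HG ag)

theorem krb_ms_nonneg {k : Type} [Field k] [NumberField k] [IsTotallyReal k] (m : Pl k → ℤ) :
    0 ≤ ms m := by
  unfold ms
  exact Finset.sum_nonneg fun v _ => abs_nonneg _

theorem krb_Tc_one {k : Type} [Field k] [NumberField k] [IsTotallyReal k] (m : Pl k → ℤ) (s : ℂ) :
    1 ≤ Tc m s := by
  unfold Tc
  have h1 := krb_ms_nonneg m
  have h2 := abs_nonneg s.im
  linarith

theorem krb_cG_pos {k : Type} [Field k] [NumberField k] (m : Pl k → ℤ) (t : ℝ) :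
    0 < cG m t := by
  unfold cG
  refine Finset.prod_pos fun v _ => norm_pos_iff.2 (Complex.Gamma_ne_zero_of_re_pos ?_)
  have h1 : (1 / 2 + ((|m v| : ℤ) : ℂ) + (t : ℂ) * Complex.I).re = 1 / 2 + ((|m v| : ℤ) : ℝ) := by
    simp
  rw [h1]
  have h2 : (0 : ℝ) ≤ ((|m v| : ℤ) : ℝ) := by exact_mod_cast abs_nonneg (m v)
  linarith

theorem pf_KRB (hKCB : T_KCBn) (hKCD : T_KCDn) : T_KRBc := by
  intro k _ _ _ B κ hκ hκ8
  obtain ⟨C, j, hC, H⟩ := hKCB k B κ hκ hκ8
  refine ⟨20 * 2 ^ (B + 1) * (C + 1), j + 1, by positivity, fun m s hs => ?_⟩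
  have hs8 : |s.re - 1 / 2| ≤ 1 / 8 := hs.trans hκ8
  have hT1 : 1 ≤ Tc m s := krb_Tc_one m s
  have hE : 0 < cG m s.im := krb_cG_pos m s.im
  set T : ℝ := Tc m s with hT
  set G : ℝ := cG m s.im with hG
  have hT0 : 0 < T := by linarith
  have hdf : ∀ z : ℂ, 0 < z.re → 10 * T * |z.im| ≤ z.re → DifferentiableAt ℂ (Km m s) z :=
    fun z h1 h2 => hKCD k m s z hs8 h1 (by rw [← hT]; exact h2)
  -- the open sector
  set U : Set ℂ := {z : ℂ | 0 < z.re ∧ 10 * T * |z.im| < z.re} with hU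
  have hopen : IsOpen U := by
    rw [hU]
    refine IsOpen.inter ?_ ?_
    · exact isOpen_lt continuous_const Complex.continuous_re
    · exact isOpen_lt (continuous_const.mul (continuous_abs.comp Complex.continuous_im))
        Complex.continuous_re
  have hd : DifferentiableOn ℂ (Km m s) U := fun z hz =>
    (hdf z hz.1 hz.2.le).differentiableWithinAt
  have hsl : ∀ r : ℝ, 0 < r → ((r : ℝ) : ℂ) ∈ U := fun r hr => by
    rw [hU]
    simp only [Set.mem_ofPred_eq, ofReal_re, ofReal_im, abs_zero, mul_zero]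
    exact ⟨hr, hr⟩
  have hD : ∀ r : ℝ, 0 < r →
      HasDerivAt (fun x : ℝ => Km m s (x : ℂ)) (deriv (Km m s) (r : ℂ)) r := fun r hr =>
    ((hd.differentiableAt (hopen.mem_nhds (hsl r hr))).hasDerivAt).comp_ofReal
  have hcont : ContinuousOn (deriv (Km m s)) U := (hd.deriv hopen).continuousOn
  refine ⟨?_, fun r hr => ⟨(hD r hr).differentiableAt, ?_, ?_⟩⟩
  · have h1 : ContinuousOn (fun r : ℝ => deriv (Km m s) (r : ℂ)) (Ioi 0) :=
      hcont.comp Complex.continuous_ofReal.continuousOn fun r hr => hsl r hr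
    refine h1.congr fun r hr => ?_
    exact (hD r hr).deriv
  · -- the value
    have h := H m s r hs (by simpa using hr) (by
      simp only [ofReal_im, abs_zero, ofReal_re, mul_zero]
      exact hr.le)
    rw [ofReal_re, Real.rpow_neg (by positivity : (0 : ℝ) ≤ 1 + r),
      Real.rpow_natCast, ← hT, ← hG] at h
    refine h.trans ?_
    have hp : 0 < r ^ (-(1 / 2 + 2 * κ)) := Real.rpow_pos_of_pos hr _
    have hq : 0 < ((1 + r) ^ B)⁻¹ := by positivity
    have h2 : (1 : ℝ) ≤ 2 ^ (B + 1) := one_le_pow₀ (by norm_num)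
    have h3 : C ≤ 20 * 2 ^ (B + 1) * (C + 1) := by nlinarith
    have h4 : T ^ j ≤ T ^ (j + 1) := pow_le_pow_right₀ hT1 (by omega)
    calc C * (T ^ j * G) * r ^ (-(1 / 2 + 2 * κ)) * ((1 + r) ^ B)⁻¹
        = C * T ^ j * (G * r ^ (-(1 / 2 + 2 * κ)) * ((1 + r) ^ B)⁻¹) := by ring
      _ ≤ 20 * 2 ^ (B + 1) * (C + 1) * T ^ (j + 1) * (G *
          r ^ (-(1 / 2 + 2 * κ)) * ((1 + r) ^ B)⁻¹) := by gcongr
      _ = _ := by ring
  · -- the derivative
    rw [(hD r hr).deriv]
    set ρ : ℝ := r / (20 * T) with hρ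
    have hρ0 : 0 < ρ := by positivity
    have hρr : ρ ≤ r / 20 := by
      rw [hρ]
      exact div_le_div_of_nonneg_left hr.le (by norm_num) (by linarith)
    have hρT : 10 * T * ρ = r / 2 := by
      rw [hρ]
      field_simp
      norm_num
    set M : ℝ := 2 ^ (B + 1) * (C * T ^ j * G *
      (r ^ (-(1 / 2 + 2 * κ)) * ((1 + r) ^ B)⁻¹)) with hM
    have hre : ∀ z : ℂ, ‖z - r‖ ≤ ρ → 19 / 20 * r ≤ z.re := fun z hz => by
      have h1 := Complex.abs_re_le_norm (z - r)
      rw [sub_re, ofReal_re] at h1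
      have h2 := abs_le.1 (h1.trans hz)
      linarith [h2.1]
    have him : ∀ z : ℂ, ‖z - r‖ ≤ ρ → 10 * T * |z.im| ≤ r / 2 := fun z hz => by
      have h1 := Complex.abs_im_le_norm (z - r)
      rw [sub_im, ofReal_im, sub_zero] at h1
      calc 10 * T * |z.im| ≤ 10 * T * ρ :=
            mul_le_mul_of_nonneg_left (h1.trans hz) (by positivity)
        _ = r / 2 := hρT
    have hball : Metric.closedBall (r : ℂ) ρ ⊆ U := fun z hz => by
      rw [Metric.mem_closedBall, dist_eq_norm] at hz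
      have h1 := hre z hz
      have h2 := him z hz
      exact ⟨by linarith, by linarith⟩
    have hdc : DiffContOnCl ℂ (Km m s) (Metric.ball (r : ℂ) ρ) := by
      refine DifferentiableOn.diffContOnCl ?_
      rw [closure_ball _ hρ0.ne']
      exact hd.mono hball
    have hbd : ∀ z ∈ Metric.sphere (r : ℂ) ρ, ‖Km m s z‖ ≤ M := by
      intro z hz
      rw [Metric.mem_sphere, dist_eq_norm] at hz
      have hzr := hre z hz.le
      have hzi := him z hz.le
      have h0 : 0 < z.re := by linarith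
      have h := H m s z hs h0 (by
        rw [← hT]
        linarith)
      rw [← hT, ← hG, Real.rpow_neg (by positivity : (0 : ℝ) ≤ 1 + z.re), Real.rpow_natCast] at h
      have hn : r / 2 ≤ z.re := by linarith
      have k1 : z.re ^ (-(1 / 2 + 2 * κ)) ≤ 2 * r ^ (-(1 / 2 + 2 * κ)) := by
        calc z.re ^ (-(1 / 2 + 2 * κ)) ≤ (r / 2) ^ (-(1 / 2 + 2 * κ)) :=
              Real.rpow_le_rpow_of_nonpos (by positivity) hn (by linarith)
          _ = r ^ (-(1 / 2 + 2 * κ)) / 2 ^ (-(1 / 2 + 2 * κ)) := Real.div_rpow hr.le (by norm_num) _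
          _ = r ^ (-(1 / 2 + 2 * κ)) * 2 ^ (1 / 2 + 2 * κ) := by
              rw [Real.rpow_neg (by norm_num : (0 : ℝ) ≤ 2), div_inv_eq_mul]
          _ ≤ r ^ (-(1 / 2 + 2 * κ)) * 2 ^ (1 : ℝ) := by
              refine mul_le_mul_of_nonneg_left ?_ (Real.rpow_nonneg hr.le _)
              exact Real.rpow_le_rpow_of_exponent_le (by norm_num) (by linarith)
          _ = _ := by rw [Real.rpow_one]; ring
      have k2 : ((1 + z.re) ^ B)⁻¹ ≤ 2 ^ B * ((1 + r) ^ B)⁻¹ := by
        have e : (2 : ℝ) ^ B * ((1 + r) ^ B)⁻¹ = (((1 + r) / 2) ^ B)⁻¹ := by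
          rw [div_pow, inv_div]
          rfl
        rw [e]
        refine inv_anti₀ (by positivity) ?_
        exact pow_le_pow_left₀ (by positivity) (by linarith) _
      refine h.trans ?_
      have hp : 0 < r ^ (-(1 / 2 + 2 * κ)) := Real.rpow_pos_of_pos hr _
      calc C * (T ^ j * G) * z.re ^ (-(1 / 2 + 2 * κ)) * ((1 + z.re) ^ B)⁻¹
          = C * T ^ j * G * (z.re ^ (-(1 / 2 + 2 * κ)) * ((1 + z.re) ^ B)⁻¹) := by ring
        _ ≤ C * T ^ j * G *
            ((2 * r ^ (-(1 / 2 + 2 * κ))) * (2 ^ B * ((1 + r) ^ B)⁻¹)) := by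
            refine mul_le_mul_of_nonneg_left ?_ (by positivity)
            exact mul_le_mul k1 k2 (by positivity) (by positivity)
        _ = M := by
            rw [hM, pow_succ]
            ring
    have hfin := Complex.norm_deriv_le_of_forall_mem_sphere_norm_le hρ0 hdc hbd
    refine hfin.trans ?_
    have hp : 0 < r ^ (-(1 / 2 + 2 * κ)) := Real.rpow_pos_of_pos hr _
    have e1 : r ^ (-(3 / 2 + 2 * κ)) = r ^ (-(1 / 2 + 2 * κ)) / r := by
      have : -(3 / 2 + 2 * κ) = -(1 / 2 + 2 * κ) - 1 := by ring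
      rw [this, Real.rpow_sub hr, Real.rpow_one]
    have e2 : M / ρ = 20 * 2 ^ (B + 1) * C * T ^ (j + 1) *
        (G * r ^ (-(3 / 2 + 2 * κ)) * ((1 + r) ^ B)⁻¹) := by
      rw [hM, hρ, e1, pow_succ T j]
      field_simp
    rw [e2]
    have hq : 0 < r ^ (-(3 / 2 + 2 * κ)) := Real.rpow_pos_of_pos hr _
    calc 20 * 2 ^ (B + 1) * C * T ^ (j + 1) *
          (G * r ^ (-(3 / 2 + 2 * κ)) * ((1 + r) ^ B)⁻¹)
        ≤ 20 * 2 ^ (B + 1) * (C + 1) * T ^ (j + 1) *
          (G * r ^ (-(3 / 2 + 2 * κ)) * ((1 + r) ^ B)⁻¹) := by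
          gcongr
          linarith
      _ = _ := by ring

end Pool.Agent.H99.CMC
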