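import Pool.Agent.H23.CMC.Targets

/-!
# The fourth moment of the complete family of CM Hilbert modular forms, part D: characters of
nonzero weight are nontrivial
-/

set_option autoImplicit false

open NumberField MeasureTheory Set Filter Complex
open scoped nonZeroDivisors Real

namespace Pool.Agent.H99.CMC

open Pool.Agent.H23.CMC
open Pool.Agent.H65.CM4 (Sq nm dg Pl rv)
open Pool.Agent.H65.CMC (Emb ty PrTo IsHk ms IsLk gg GM cG Km Idx cdc Fmc lc)
open Pool.Agent.H23.CM4 (nJ Jd Nr wB)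
open Pool.Agent.H23.LC (HG ag)

/-- an integer which separates the embeddings -/
theorem ntv_beta (K : Type) [Field K] [NumberField K] :
    ∃ β : 𝓞 K, ∀ φ φ' : K →+* ℂ, φ (β : K) = φ' (β : K) → φ = φ' := by
  obtain ⟨α, hα⟩ := Field.exists_primitive_element ℚ K
  have halg : IsAlgebraic ℤ α :=
    (IsFractionRing.isAlgebraic_iff ℤ ℚ K).2 (Algebra.IsAlgebraic.isAlgebraic α)
  obtain ⟨y, hy, hint⟩ := halg.exists_integral_multiple
  refine ⟨⟨y • α, hint⟩, fun φ φ' h => ?_⟩
  have h1 : φ (y • α) = φ' (y • α) := h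
  rw [zsmul_eq_mul, map_mul, map_mul, map_intCast, map_intCast] at h1
  have hy' : (y : ℂ) ≠ 0 := by exact_mod_cast hy
  have h2 : φ α = φ' α := mul_left_cancel₀ hy' h1
  have h3 := (Field.primitive_element_iff_algHom_eq_of_eval' ℚ ℂ
    (fun x => IsAlgClosed.splits _) α).1 hα
  have h4 : φ.toRatAlgHom = φ'.toRatAlgHom := h3 h2
  ext x
  exact DFunLike.congr_fun h4 x

theorem ntv_zpow (z : ℂ) (n : ℤ) :
    (z / (starRingEnd ℂ) z) ^ n = ((if 0 < n then z else (starRingEnd ℂ) z) /
      (starRingEnd ℂ) (if 0 < n then z else (starRingEnd ℂ) z)) ^ n.natAbs := by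
  by_cases h : 0 < n
  · rw [if_pos h, ← zpow_natCast]
    congr 1
    omega
  · rw [if_neg h, Complex.conj_conj, ← zpow_natCast]
    have e : ((n.natAbs : ℕ) : ℤ) = -n := by omega
    rw [e, zpow_neg, ← inv_zpow, inv_div]

theorem pf_NTV (_hPLB : T_PLB) (_hDCX : T_DCX) : T_NTV := by
  classical
  intro k _ _ _ K _ _ _ Φ f m ψ hψ hm
  by_contra hcon
  have hcon' : ∀ I : Ideal (𝓞 K), ψ I ≠ 0 → ψ I = 1 := by
    intro I hI
    by_contra h
    exact hcon ⟨I, hI, h⟩
  obtain ⟨-, hcx, hemb, hhk⟩ := hψ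
  obtain ⟨v0, hv0⟩ : ∃ v, m v ≠ 0 := Function.ne_iff.1 hm
  obtain ⟨β, hβ⟩ := ntv_beta K
  -- the embeddings
  set e : Pl k → K →+* ℂ := fun v => if 0 < m v then Φ v else (starRingEnd ℂ).comp (Φ v) with he
  have hea : ∀ v (a : K), e v a = if 0 < m v then Φ v a else (starRingEnd ℂ) (Φ v a) := by
    intro v a
    rw [he]
    dsimp only
    split_ifs <;> rfl
  have hex : ∀ v (x : k), e v (algebraMap k K x) = ((rv v x : ℝ) : ℂ) := by
    intro v x
    rw [hea, hemb v x]
    split_ifs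
    · rfl
    · exact Complex.conj_ofReal _
  have hty : ∀ a : K, ty Φ m a = ∏ v : Pl k, (e v a / (starRingEnd ℂ) (e v a)) ^ (m v).natAbs := by
    intro a
    unfold ty
    refine Finset.prod_congr rfl fun v _ => ?_
    rw [ntv_zpow, hea]
  -- no embedding of the family is real
  have hreal : ∀ v, ¬ (starRingEnd ℂ).comp (e v) = e v := by
    intro v h
    have h1 : ComplexEmbedding.IsReal (e v) := h
    have h2 := InfinitePlace.isReal_mk_iff.2 h1
    have h3 := hcx.isComplex (InfinitePlace.mk (e v))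
    rw [← InfinitePlace.not_isReal_iff_isComplex] at h3
    exact h3 h2
  -- conjugates
  have hconj : ∀ v, (starRingEnd ℂ) (e v (β : K)) ≠ e v0 (β : K) := by
    intro v h
    have h1 : (starRingEnd ℂ).comp (e v) = e v0 := hβ _ _ h
    have h2 : v = v0 := by
      have h3 : v.embedding = v0.embedding := by
        ext x
        rw [← InfinitePlace.embedding_of_isReal_apply (IsTotallyReal.isReal v) x,
          ← InfinitePlace.embedding_of_isReal_apply (IsTotallyReal.isReal v0) x]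
        have h4 := DFunLike.congr_fun h1 (algebraMap k K x)
        rw [RingHom.comp_apply, hex, hex, Complex.conj_ofReal] at h4
        exact h4
      rw [← InfinitePlace.mk_embedding v, h3, InfinitePlace.mk_embedding]
    rw [h2] at h1
    exact hreal v0 h1
  have hb0 : e v0 (β : K) ≠ 0 := by
    intro h
    apply hconj v0
    rw [h, map_zero]
  have hβ0 : β ≠ 0 := by
    intro h
    apply hb0
    rw [h]
    simp
  set N : ℕ := Ideal.absNorm f with hN
  have hN0 : N ≠ 0 := by
    rw [hN, Ne, Ideal.absNorm_eq_zero_iff]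
    exact hhk.fne
  have hNf : ((N : ℕ) : 𝓞 K) ∈ f.map (algebraMap (𝓞 k) (𝓞 K)) := by
    have h1 : algebraMap (𝓞 k) (𝓞 K) ((N : ℕ) : 𝓞 k) ∈ f.map (algebraMap (𝓞 k) (𝓞 K)) :=
      Ideal.mem_map_of_mem _ (Ideal.absNorm_mem f)
    rwa [map_natCast] at h1
  set a : ℕ → 𝓞 K := fun t => 1 + (N : 𝓞 K) * (t : 𝓞 K) * β with ha
  have hav : ∀ (v : Pl k) (t : ℕ), e v (a t : K) = 1 + (N : ℂ) * (t : ℂ) * e v (β : K) := by
    intro v t
    rw [ha]
    simp
  -- the key identity
  have key : ∀ t : ℕ, a t ≠ 0 → ∏ v : Pl k, (e v (a t : K)) ^ (m v).natAbs =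
      ∏ v : Pl k, ((starRingEnd ℂ) (e v (a t : K))) ^ (m v).natAbs := by
    intro t ht
    have hat : ((a t : 𝓞 K) : K) ≠ 0 := by
      rw [Ne, RingOfIntegers.coe_eq_zero_iff]
      exact ht
    have hmem : a t - 1 ∈ f.map (algebraMap (𝓞 k) (𝓞 K)) := by
      have e1 : a t - 1 = ((N : ℕ) : 𝓞 K) * ((t : 𝓞 K) * β) := by
        rw [ha]
        ring
      rw [e1]
      exact Ideal.mul_mem_right _ _ hNf
    have hpr : PrTo f (Ideal.span {a t}) := by
      refine ⟨?_, ?_⟩
      · rw [Ne, Ideal.span_singleton_eq_bot]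
        exact ht
      · rw [Ideal.eq_top_iff_one]
        have e2 : (1 : 𝓞 K) = a t + -(a t - 1) := by ring
        rw [e2]
        exact Submodule.add_mem_sup (Ideal.mem_span_singleton_self _) (neg_mem hmem)
    have h1 : ψ (Ideal.span {a t}) = ty Φ m (a t : K) := by
      refine hhk.pri (a t) 1 hpr ?_
      rw [map_one]
      exact hmem
    have h2 : ψ (Ideal.span {a t}) = 1 := by
      apply hcon'
      intro h0
      have h3 := hhk.nrm _ hpr
      rw [h0, norm_zero] at h3
      exact zero_ne_one h3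
    rw [h1, hty] at h2
    simp only [div_pow] at h2
    rw [Finset.prod_div_distrib, div_eq_one_iff_eq] at h2
    · exact h2
    · rw [Finset.prod_ne_zero_iff]
      intro v _
      refine pow_ne_zero _ ?_
      rw [Ne, map_eq_zero, map_eq_zero]
      exact hat
  -- the polynomials
  set A : Polynomial ℂ := ∏ v : Pl k,
    (1 + Polynomial.C ((N : ℂ) * e v (β : K)) * Polynomial.X) ^ (m v).natAbs with hA
  set A' : Polynomial ℂ := ∏ v : Pl k,
    (1 + Polynomial.C ((N : ℂ) * (starRingEnd ℂ) (e v (β : K))) * Polynomial.X) ^ (m v).natAbs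
    with hA'
  have hAev : ∀ x : ℂ, A.eval x = ∏ v : Pl k, (1 + (N : ℂ) * e v (β : K) * x) ^ (m v).natAbs := by
    intro x
    rw [hA, Polynomial.eval_prod]
    refine Finset.prod_congr rfl fun v _ => ?_
    simp
  have hAev' : ∀ x : ℂ, A'.eval x =
      ∏ v : Pl k, (1 + (N : ℂ) * (starRingEnd ℂ) (e v (β : K)) * x) ^ (m v).natAbs := by
    intro x
    rw [hA', Polynomial.eval_prod]
    refine Finset.prod_congr rfl fun v _ => ?_
    simp
  have hfin : {t : ℕ | a t = 0}.Finite := by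
    refine Set.Subsingleton.finite ?_
    intro t ht t' ht'
    have h1 : a t = a t' := (show a t = 0 from ht).trans (show a t' = 0 from ht').symm
    have h2 : (N : 𝓞 K) * (t : 𝓞 K) * β = (N : 𝓞 K) * (t' : 𝓞 K) * β := add_left_cancel h1
    have h3 := mul_right_cancel₀ hβ0 h2
    have hN' : (N : 𝓞 K) ≠ 0 := by exact_mod_cast hN0
    have h4 := mul_left_cancel₀ hN' h3
    exact_mod_cast h4
  have hinf : ({t : ℕ | a t = 0}ᶜ).Infinite := hfin.infinite_compl
  have hAA : A = A' := by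
    refine Polynomial.eq_of_infinite_eval_eq A A' ?_
    refine (hinf.image (f := fun t : ℕ => (t : ℂ)) (Nat.cast_injective.injOn)).mono ?_
    rintro _ ⟨t, ht, rfl⟩
    have h1 := key t ht
    show A.eval (t : ℂ) = A'.eval (t : ℂ)
    rw [hAev, hAev']
    have e1 : ∏ v : Pl k, (e v (a t : K)) ^ (m v).natAbs =
        ∏ v : Pl k, (1 + (N : ℂ) * e v (β : K) * (t : ℂ)) ^ (m v).natAbs := by
      refine Finset.prod_congr rfl fun v _ => ?_
      rw [hav]
      congr 1
      ring
    have e2 : ∏ v : Pl k, ((starRingEnd ℂ) (e v (a t : K))) ^ (m v).natAbs =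
        ∏ v : Pl k, (1 + (N : ℂ) * (starRingEnd ℂ) (e v (β : K)) * (t : ℂ)) ^ (m v).natAbs := by
      refine Finset.prod_congr rfl fun v _ => ?_
      rw [hav]
      simp only [map_add, map_one, map_mul, map_natCast]
      congr 1
      ring
    rw [← e1, ← e2]
    exact h1
  have hNC : (N : ℂ) ≠ 0 := by exact_mod_cast hN0
  have h0 : A.eval (-((N : ℂ) * e v0 (β : K))⁻¹) = 0 := by
    rw [hAev]
    refine Finset.prod_eq_zero (Finset.mem_univ v0) ?_
    rw [mul_neg, mul_inv_cancel₀ (mul_ne_zero hNC hb0), add_neg_cancel, zero_pow]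
    exact Int.natAbs_ne_zero.2 hv0
  rw [hAA, hAev', Finset.prod_eq_zero_iff] at h0
  obtain ⟨v, -, hv⟩ := h0
  have h6 : 1 + (N : ℂ) * (starRingEnd ℂ) (e v (β : K)) * -((N : ℂ) * e v0 (β : K))⁻¹ = 0 := by
    exact eq_zero_of_pow_eq_zero hv
  apply hconj v
  have h7 : (N : ℂ) * (starRingEnd ℂ) (e v (β : K)) = (N : ℂ) * e v0 (β : K) := by
    have h8 := mul_ne_zero hNC hb0
    rw [mul_neg, ← sub_eq_add_neg, sub_eq_zero, eq_comm, mul_inv_eq_one₀ h8] at h6
    exact h6
  exact mul_left_cancel₀ hNC h7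

end Pool.Agent.H99.CMC
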