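import Pool.Agent.H95.CMC.Targets

/-!
# The fourth moment of the complete family of CM Hilbert modular forms, part C: representatives of
the lines
-/

set_option autoImplicit false
set_option linter.unusedSectionVars false

open MeasureTheory Set Filter NumberField
open scoped Real nonZeroDivisors

namespace Pool.Agent.H99.CMC

open Pool.Agent.H65.CM4 Pool.Agent.H65.CMC Pool.Agent.H95.CMC

section

variable {k : Type} [Field k] [NumberField k] [IsTotallyReal k]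

theorem rsl_rd {b t : ℕ} {B y₀ y : ℝ} {M : La k} {Q : QF k} (hB : 1 ≤ B) (hy0 : 0 < y₀)
    (hy1 : y₀ ≤ y) (hy2 : y ≤ 2 * y₀) (h : Rd b B y₀ M Q) : Rd (b * t) (4 * B) y M Q := by
  have hB0 : 0 < B := by linarith
  have hy : 0 < y := by linarith
  obtain ⟨e, he0, he1, he2⟩ := h.bal
  have hpos : ∀ v : Pl k, 0 < rv v (Q.1 : k) := fun v => lt_of_lt_of_le (by positivity) (he2 v).1
  refine ⟨?_, ⟨e, he0, ?_, fun v => ⟨?_, ?_⟩⟩, fun v => ?_, fun v => ⟨?_, ?_⟩⟩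
  · intro u
    have h1 : ((b * t : ℕ) : 𝓞 k) • u = (t : 𝓞 k) • ((b : 𝓞 k) • u) := by
      rw [smul_smul, Nat.cast_mul, mul_comm]
    rw [h1]
    exact M.smul_mem _ (h.mem u)
  · calc e ≤ B * y₀ := he1
      _ ≤ 4 * B * y := by
        have h1 : B * y₀ ≤ B * y := by gcongr
        have h2 : 0 < B * y := by positivity
        linarith
  · refine le_trans ?_ (he2 v).1
    gcongr
    linarith
  · refine (he2 v).2.trans ?_
    gcongr
    linarith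
  · refine (h.b v).trans ?_
    have := hpos v
    gcongr
    linarith
  · refine le_trans ?_ (h.d v).1
    rw [div_le_div_iff₀ (by positivity) hB0]
    have h1 : y ^ 2 ≤ (2 * y₀) ^ 2 := by gcongr
    have h2 : y ^ 2 * B ≤ (2 * y₀) ^ 2 * B := by gcongr
    linarith
  · refine (h.d v).2.trans ?_
    have h1 : B * y₀ ^ 2 ≤ B * y ^ 2 := by gcongr
    have h2 : 0 < B * y ^ 2 := by positivity
    linarith

theorem rsl_ol {K : Type} [Field K] [NumberField K] [IsTotallyComplex K] [Algebra k K]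
    [Algebra.IsQuadraticExtension k K] {b t : ℕ} {Λ : Sl k K} {α β : K} {μ : k} {M : La k}
    {Q : QF k} (h : Ol b Λ α β μ M Q) : Ol (b * t) Λ α β μ M Q := by
  refine ⟨?_, h.lat, h.mem, h.inj, h.pos, h.nrm, ?_⟩
  · intro u
    have h1 : ((b * t : ℕ) : 𝓞 k) • u = (t : 𝓞 k) • ((b : 𝓞 k) • u) := by
      rw [smul_smul, Nat.cast_mul, mul_comm]
    rw [h1]
    exact M.smul_mem _ (h.bM u)
  · have h1 : ((b * t : ℕ) : 𝓞 k) = (t : 𝓞 k) * (b : 𝓞 k) := by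
      rw [Nat.cast_mul, mul_comm]
    rw [h1]
    exact Ideal.mul_mem_left _ _ h.cop

end

theorem pf_RSL (hRDL : T_RDL) (hLNB : T_LNB) (hLNI : T_LNI) (hCPR : T_CPR) : T_RSL := by
  classical
  intro k _ _ _
  obtain ⟨b, B, hb, hB, hR⟩ := hRDL k
  refine ⟨b, 4 * B, hb, by linarith, ?_⟩
  intro b' hb' hbb K _ _ _ _ _ f y hf hy1 hy2
  obtain ⟨t, rfl⟩ := hbb
  have hd : (0 : ℝ) < |(discr K : ℝ)| := by
    rw [abs_pos]
    exact_mod_cast discr_ne_zero K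
  have hN0 : Ideal.absNorm f ≠ 0 := by
    rw [Ne, Ideal.absNorm_eq_zero_iff]
    exact hf
  have hN0' : (0 : ℝ) < nm f := by
    unfold nm
    exact_mod_cast Nat.pos_of_ne_zero hN0
  have hy0 : (0 : ℝ) < (|(discr K : ℝ)| * nm f ^ 2) ^ (1 / (2 * dg k : ℝ)) :=
    Real.rpow_pos_of_pos (by positivity) _
  choose I hIc hIp using hCPR k K f hf
  have key : ∀ Λ : Sl k K, (∃ c, Λ ∈ Ln f (I c : Ideal (𝓞 K))) →
      ∃ (α β : K) (μ : k) (M : La k) (Q : QF k), Ol (b * t) Λ α β μ M Q ∧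
        Rd (b * t) (4 * B) y M Q := by
    rintro Λ ⟨c, hc⟩
    obtain ⟨l, hlI, hl, rfl⟩ := ((hLNB k K f (I c : Ideal (𝓞 K)) hf (hIp c)).1 Λ).1 hc
    obtain ⟨h1, h2⟩ := hLNI k K f (I c : Ideal (𝓞 K)) l hf (hIp c) hlI hl
    have hI0 : (I c : Ideal (𝓞 K)) ≠ ⊥ := (hIp c).1
    have hA0 : Ideal.absNorm (I c : Ideal (𝓞 K)) ≠ 0 := by
      rw [Ne, Ideal.absNorm_eq_zero_iff]
      exact hI0
    have h3 : Ideal.absNorm (Ideal.relNorm (𝓞 k) (I c : Ideal (𝓞 K))) =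
        Ideal.absNorm (I c : Ideal (𝓞 K)) := Ideal.absNorm_relNorm (R := 𝓞 k) (S := 𝓞 K) _
    obtain ⟨α, β, μ, M, Q, hO, hD⟩ := hR K (ln f (I c : Ideal (𝓞 K)) l) (Ideal.absNorm f)
      (by rw [h1]; exact mul_ne_zero hA0 hN0)
      (by
        rw [h2, Ne, ← Ideal.absNorm_eq_zero_iff, h3]
        exact hA0)
      (by rw [h1, h2, h3])
    refine ⟨α, β, μ, M, Q, rsl_ol hO, rsl_rd hB hy0 hy1 hy2 ?_⟩
    exact hD
  have key' : ∀ Λ : Sl k K, ∃ (α β : K) (μ : k) (M : La k) (Q : QF k),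
      (∃ c, Λ ∈ Ln f (I c : Ideal (𝓞 K))) → Ol (b * t) Λ α β μ M Q ∧
        Rd (b * t) (4 * B) y M Q := by
    intro Λ
    by_cases h : ∃ c, Λ ∈ Ln f (I c : Ideal (𝓞 K))
    · obtain ⟨α, β, μ, M, Q, h1⟩ := key Λ h
      exact ⟨α, β, μ, M, Q, fun _ => h1⟩
    · exact ⟨0, 0, 0, ⊥, (0, 0, 0), fun h' => absurd h' h⟩
  choose α β μ M Q hOD using key'
  exact ⟨⟨I, α, β, μ, M, Q, hIc, hIp, fun c Λ hΛ => (hOD Λ ⟨c, hΛ⟩).1,
    fun c Λ hΛ => (hOD Λ ⟨c, hΛ⟩).2⟩⟩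

end Pool.Agent.H99.CMC
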